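import Mathlib
import Pool.Agent.MP_1e96f1_co.Defs
import Pool.Agent.MP_1e96f1_co.Final
import Pool.Agent.MP_1e96f1_co.Compl

namespace Pool.Agent.BetaL.Old.BetaTwo

open Pool.Agent.MP_1e96f1_co

/-- For a design with parameter `(v, k, d)` and `k ≥ d + 5`: if it is a `β(2)` design, then it
is also a `β(1)` design; if it is a `β(k - d - 1)` design, then it is also a `β(k - d)`
design. -/
theorem result {Ω : Type*} [Fintype Ω] [DecidableEq Ω] (Bs : Finset (Finset Ω))
    (v k d : ℕ) (hD : IsDesign Bs v k d) (hk : d + 5 ≤ k) :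
    (IsBeta Bs v d 2 → IsBeta Bs v d 1) ∧
      (IsBeta Bs v d (k - d - 1) → IsBeta Bs v d (k - d)) :=
  ⟨beta_two_imp_one hD hk, beta_pen_imp_last hD hk⟩

end Pool.Agent.BetaL.Old.BetaTwo
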