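import Mathlib
import Pool.Agent.MP_1e96f1_co.Defs
import Pool.Agent.BetaF.F

namespace Pool.Agent.BetaL.Old.FinitelyMany

open Pool.Agent.MP_1e96f1_co

universe u

/-- For every `ε > 0` there is a number `V` such that every `β(i)` design with parameter `(v, k, d)`,
where `d > 0`, `3 ≤ i ≤ k - d - 2` and `v > V`, has one of the middle indices
(`|k - d + 1 - 2 i| ≤ 1`) and satisfies `i * |v - 2 k| ≤ ε * k`. -/
theorem result {ε : ℝ} (hε : 0 < ε) :
    ∃ V : ℕ, ∀ (Ω : Type u) [Fintype Ω] [DecidableEq Ω] (Bs : Finset (Finset Ω))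
      (v k d i : ℕ), IsDesign Bs v k d → 0 < d → IsBeta Bs v d i → 3 ≤ i → i + 2 ≤ k - d →
      V < v →
      (k - d ≤ 2 * i ∧ 2 * i ≤ k - d + 2) ∧ (i : ℝ) * |(v : ℝ) - 2 * k| ≤ ε * k :=
  Pool.Agent.BetaF.finitely_many hε

end Pool.Agent.BetaL.Old.FinitelyMany
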