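import Mathlib
import Pool.Agent.MP_1e96f1_co.Defs
import Pool.Agent.BetaL.Bound

namespace Pool.Agent.BetaL.Old.LloydZerosOld

open Finset Pool.Agent.MP_1e96f1_co

/-- Let `(Ω, Bs)` be a `β(n + 1)` design with parameter `(v, k, d)`, where `n ≥ 1` and
`k = d + 2 n + 1 + a` with `a ≥ 0`; if `a = 0`, suppose also `2 k ≤ v + 1`. Then every
nonnegative real zero of the polynomial
`₃F₂(-t, t + v - 2 (d + 2 n) - 1, -n; a + 1, -(d + 2 n); 1)` in `t` is an integer. -/
theorem result {Ω : Type*} [Fintype Ω] [DecidableEq Ω] (Bs : Finset (Finset Ω))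
    (v d n a : ℕ) (hD : IsDesign Bs v (d + 2 * n + 1 + a) d) (hB : IsBeta Bs v d (n + 1))
    (hn : 1 ≤ n) (hv : a = 0 → 2 * (d + 2 * n + 1) ≤ v + 1) (t : ℝ) (ht : 0 ≤ t)
    (hz : ∑ j ∈ range (n + 1), (-1) ^ j * ∏ r ∈ range j,
      (((n : ℝ) - r) * (t - r) * (t + (v - 2 * (d + 2 * n) - 1) + r) /
        ((r + 1) * (a + 1 + r) * (d + 2 * n - r))) = 0) :
    ∃ m : ℕ, t = m := by
  have hv' : 2 * (d + 2 * n + 1) ≤ v + 1 := by
    rcases Nat.eq_zero_or_pos a with h | h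
    · exact hv h
    · have h1 := Pool.Agent.BetaL.noda_lower hD hB (by omega)
      rw [show d + 2 * n + 1 + a - d = 2 * n + 1 + a by omega] at h1
      have h2 : (n + 1) * (2 * (d + 2 * n + 2)) ≤ (n + 1) * v := by nlinarith
      have h3 := Nat.le_of_mul_le_mul_left h2 (by omega)
      omega
  exact Pool.Agent.BetaL.lloyd_zero hD hB hn hv' ht hz

end Pool.Agent.BetaL.Old.LloydZerosOld
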