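import Mathlib
import Pool.Agent.MP_1e96f1_co.Defs
import Pool.Agent.BetaL.Main

namespace Pool.Agent.BetaL.Old.NearMiddle

open Pool.Agent.MP_1e96f1_co

/-- Let `(Ω, Bs)` be a `β(i)` design with parameter `(v, k, d)`, where `d > 0`, `3 ≤ i` and
`i ≤ k - d - 2`. Then `k - d + 1` and `2 i` differ by at most `14`; they differ by at most
`12`, `8`, `7` if both `i` and `k - d + 1 - i` are at least `4`, `5`, `7` respectively. -/
theorem result {Ω : Type*} [Fintype Ω] [DecidableEq Ω] (Bs : Finset (Finset Ω))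
    (v k d i : ℕ) (hD : IsDesign Bs v k d) (hd : 0 < d) (hB : IsBeta Bs v d i)
    (hi : 3 ≤ i) (hi' : i + 2 ≤ k - d) :
    (k - d + 1 ≤ 2 * i + 14 ∧ 2 * i ≤ k - d + 1 + 14) ∧
    (4 ≤ i → i + 3 ≤ k - d → k - d + 1 ≤ 2 * i + 12 ∧ 2 * i ≤ k - d + 1 + 12) ∧
    (5 ≤ i → i + 4 ≤ k - d → k - d + 1 ≤ 2 * i + 8 ∧ 2 * i ≤ k - d + 1 + 8) ∧
    (7 ≤ i → i + 6 ≤ k - d → k - d + 1 ≤ 2 * i + 7 ∧ 2 * i ≤ k - d + 1 + 7) := by
  have h1 : ¬ Pool.Agent.BetaL.Far i (k - d) := fun hF =>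
    Pool.Agent.BetaL.no_beta hD hd hF hB
  have h2 : ¬ Pool.Agent.BetaL.Far (k - d + 1 - i) (k - d) := fun hF =>
    Pool.Agent.BetaL.no_beta_co hD hd (by omega) hF hB
  unfold Pool.Agent.BetaL.Far at h1 h2
  omega

end Pool.Agent.BetaL.Old.NearMiddle
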