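import Mathlib
import Pool.Agent.MP_1e96f1_co.Defs
import Pool.Agent.BetaL.Asym

namespace Pool.Agent.BetaL.Old.PowerSaving

open Pool.Agent.MP_1e96f1_co

/-- Let `(Ω, Bs)` be a `β(i)` design with parameter `(v, k, d)`, where `d > 0`, `3 ≤ i` and
`i ≤ k - d - 2`. Then `|v - 2 k|` is at most `(k - d - 1) ^ 2 * k ^ (3 / 4) / 2` and at most
`16 * k ^ (11 / 12)`; if moreover `2 i` and `k - d + 1` differ by at least `2`, then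
`v ≤ (k - d - 1) ^ 12`. -/
theorem result {Ω : Type*} [Fintype Ω] [DecidableEq Ω] (Bs : Finset (Finset Ω))
    (v k d i : ℕ) (hD : IsDesign Bs v k d) (hd : 0 < d) (hB : IsBeta Bs v d i)
    (hi : 3 ≤ i) (hi' : i + 2 ≤ k - d) :
    16 * ((v : ℤ) - 2 * k) ^ 4 ≤ ((k : ℤ) - d - 1) ^ 8 * k ^ 3 ∧
    ((v : ℤ) - 2 * k) ^ 12 ≤ 2 ^ 48 * k ^ 11 ∧
    (2 * i + 1 ≤ k - d ∨ k - d + 3 ≤ 2 * i → v ≤ (k - d - 1) ^ 12) :=
  Pool.Agent.BetaL.main hD hd hB hi hi'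

end Pool.Agent.BetaL.Old.PowerSaving
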