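import Mathlib
import Pool.Agent.MP_1e96f1_co.Defs
import Pool.Agent.BetaL.Bound

namespace Pool.Agent.BetaL.Old.QuadraticBoundOld

open Pool.Agent.MP_1e96f1_co

/-- Let `(Ω, Bs)` be a `β(n + 1)` design with parameter `(v, k, d)`, where `n ≥ 1` and
`k = d + 2 n + 1 + a` with `a ≥ 0`; if `a = 0`, suppose also `2 k ≤ v + 1`. Then either
`n v = (d + 2 n) (k - d)` (equality in Noda's upper bound) and the design is also a `β(n)`
design, or `Q(y) ≥ 0` for `y = v - 2 (d + 2 n) + 1` and the quadratic polynomial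
`Q(y) = (a+1)(a+2)(d+2n)(d+2n-1) - 2n(a+2)(d+2n-1) y + n(n-1) y (y+1)`. -/
theorem result {Ω : Type*} [Fintype Ω] [DecidableEq Ω] (Bs : Finset (Finset Ω))
    (v d n a : ℕ) (hD : IsDesign Bs v (d + 2 * n + 1 + a) d) (hB : IsBeta Bs v d (n + 1))
    (hn : 1 ≤ n) (hv : a = 0 → 2 * (d + 2 * n + 1) ≤ v + 1) :
    (n * v = (d + 2 * n) * (2 * n + 1 + a) ∧ IsBeta Bs v d n) ∨
    0 ≤ ((a : ℤ) + 1) * (a + 2) * (d + 2 * n) * (d + 2 * n - 1) -
      2 * n * (a + 2) * (d + 2 * n - 1) * (v - 2 * (d + 2 * n) + 1) +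
      n * (n - 1) * (v - 2 * (d + 2 * n) + 1) * (v - 2 * (d + 2 * n) + 2) := by
  have hv' : 2 * (d + 2 * n + 1) ≤ v + 1 := by
    rcases Nat.eq_zero_or_pos a with h | h
    · exact hv h
    · have h1 := Pool.Agent.BetaL.noda_lower hD hB (by omega)
      rw [show d + 2 * n + 1 + a - d = 2 * n + 1 + a by omega] at h1
      have h2 : (n + 1) * (2 * (d + 2 * n + 2)) ≤ (n + 1) * v := by nlinarith
      have h3 := Nat.le_of_mul_le_mul_left h2 (by omega)
      omega
  rcases Pool.Agent.BetaL.quad_bound hD hB hn hv' with h | h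
  · exact Or.inl h
  · right
    exact_mod_cast h

end Pool.Agent.BetaL.Old.QuadraticBoundOld
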